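import Mathlib
import Pool.Agent.Helper859_NL.FinalD

/-!
Critical bond percolation on `ε ℤ²` (`p = 1/2`): moderate deviations of the number of cluster
perimeters (interfaces) which separate the two boundary components of a doubly connected domain of
the Riemann sphere, with the conformally invariant Gaussian rate, uniformly in the domain and in the
mesh.

Colour the open edges and their endpoints in one colour, the dual edges which cross the closed edges
and their endpoints in the other colour, and let `N` be the minimal number of changes of colour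
(`changes`) of a path from one boundary component to the other one; let `M` be the modulus of the
domain and `v = 4 / (3 √3) - 1 / π`. For `1 ≪ x ≪ √M` the probabilities that `N ≥ M / √3 + x √M` and
that `N ≤ M / √3 - x √M` are `exp (- (1 + o(1)) x² / (2 v))`, uniformly in the domain and the mesh.
-/

set_option autoImplicit false

namespace Pool.Agent.Results.MP_b3e76a_pr.InterfaceModerateDeviations

open MeasureTheory

open scoped ENNReal

/-- The square lattice: two points of `ℤ²` are adjacent when they differ by one in exactly one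
coordinate. -/
def Z2 : SimpleGraph (ℤ × ℤ) where
  Adj u v := |u.1 - v.1| + |u.2 - v.2| = 1
  symm := ⟨fun u v h => by rw [abs_sub_comm v.1, abs_sub_comm v.2]; exact h⟩
  loopless := ⟨fun u h => by simp at h⟩

/-- Critical bond percolation: every edge of the square lattice is open (`true`) with
probability `1/2`, independently of the other edges. -/
noncomputable def crit : Measure (Z2.edgeSet → Bool) :=
  Measure.infinitePi (fun _ => ProbabilityTheory.bernoulliMeasure true false
    ⟨1/2, by norm_num, by norm_num⟩)

/-- The graph of the open edges. -/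
def openGraph (ω : Z2.edgeSet → Bool) : SimpleGraph (ℤ × ℤ) :=
  SimpleGraph.fromEdgeSet {e | ∃ h : e ∈ Z2.edgeSet, ω ⟨e, h⟩ = true}

/-- The points: `((x, y), true)` is the vertex `(x, y)` of `ℤ²` and `((x, y), false)` is the
vertex `(x + 1/2, y + 1/2)` of the dual lattice. -/
abbrev Pt := (ℤ × ℤ) × Bool

/-- The vertex `v` of `ℤ²` is one of the four corners of the square of the dual vertex `w`. -/
def Corner (v w : ℤ × ℤ) : Prop := (v.1 = w.1 ∨ v.1 = w.1 + 1) ∧ (v.2 = w.2 ∨ v.2 = w.2 + 1)

/-- Moves without change of colour: along an open edge, or from a dual vertex to a neighbouring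
dual vertex across a closed edge (the edge between the two common corners of their squares). -/
inductive Free (ω : Z2.edgeSet → Bool) : Pt → Pt → Prop
  | primal {u v : ℤ × ℤ} (h : (openGraph ω).Adj u v) : Free ω (u, true) (v, true)
  | dual {u v x y : ℤ × ℤ} (huv : u ≠ v) (hxy : Z2.Adj x y) (hclosed : ¬ (openGraph ω).Adj x y)
      (h1 : Corner x u) (h2 : Corner y u) (h3 : Corner x v) (h4 : Corner y v) :
      Free ω (u, false) (v, false)

/-- Change of colour: from a vertex to the dual vertex of one of the four squares around it, or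
back. -/
inductive Change : Pt → Pt → Prop
  | out {v w : ℤ × ℤ} (h : Corner v w) : Change (v, true) (w, false)
  | back {v w : ℤ × ℤ} (h : Corner v w) : Change (w, false) (v, true)

/-- The point `p` can be reached from a vertex of `P` with at most `k` changes of colour. -/
inductive Reach (ω : Z2.edgeSet → Bool) (P : Set (ℤ × ℤ)) : ℕ → Pt → Prop
  | start {v : ℤ × ℤ} (h : v ∈ P) (k : ℕ) : Reach ω P k (v, true)
  | free {k : ℕ} {p q : Pt} (h : Reach ω P k p) (hpq : Free ω p q) : Reach ω P k q
  | change {k : ℕ} {p q : Pt} (h : Reach ω P k p) (hpq : Change p q) : Reach ω P (k + 1) q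

/-- The number of interfaces between `P` and `Q`: the minimal number of changes of colour of a path
from a vertex of `P` to a vertex of `Q`. -/
noncomputable def changes (P Q : Set (ℤ × ℤ)) (ω : Z2.edgeSet → Bool) : ℕ :=
  sInf {k | ∃ v ∈ Q, Reach ω P k (v, true)}

/-- The position of the vertex `v` of the lattice `ε ℤ²` in the plane. -/
def pos (ε : ℝ) (v : ℤ × ℤ) : ℂ := ⟨ε * v.1, ε * v.2⟩

/-- The lattice approximation of `K`: the vertices of `ε ℤ²` at distance at most `ε` from `K`. -/
def near (ε : ℝ) (K : Set ℂ) : Set (ℤ × ℤ) := {v | ∃ z ∈ K, dist (pos ε v) z ≤ ε}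

/-- The Dirichlet energy: the integral over the plane of the square of the norm of the gradient. -/
noncomputable def energy (u : ℂ → ℝ) : ℝ≥0∞ := ∫⁻ z, ENNReal.ofReal (‖fderiv ℝ u z‖ ^ 2)

/-- The capacity of the condenser with the plates `K` and `L`: the infimum of the energies of the
`C¹` functions which are equal to `0` on `K` and to `1` on `L`. -/
noncomputable def capacity (K L : Set ℂ) : ℝ≥0∞ :=
  ⨅ (u : ℂ → ℝ) (_ : ContDiff ℝ 1 u ∧ (∀ z ∈ K, u z = 0) ∧ ∀ z ∈ L, u z = 1), energy u

/-- The modulus of the domain between `K` and `L` (the extremal distance of `K` and `L`): the inverse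
of the capacity. -/
noncomputable def modulus (K L : Set ℂ) : ℝ := (capacity K L).toReal⁻¹

/-- The part of a subset of the Riemann sphere `ℂ ∪ {∞}` which lies in the plane. -/
def finitePart (A : Set (OnePoint ℂ)) : Set ℂ := {z | (z : OnePoint ℂ) ∈ A}

theorem free_iff {ω : Z2.edgeSet → Bool} {p q : Pt} :
    Free ω p q ↔ Pool.Agent.H863R2.NL.Free ω p q := by
  constructor
  · rintro (h | ⟨h0, h1, h2, h3, h4, h5, h6⟩)
    · exact Pool.Agent.H863R2.NL.Free.primal h
    · exact Pool.Agent.H863R2.NL.Free.dual h0 h1 h2 h3 h4 h5 h6
  · rintro (h | ⟨h0, h1, h2, h3, h4, h5, h6⟩)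
    · exact Free.primal h
    · exact Free.dual h0 h1 h2 h3 h4 h5 h6

theorem change_iff {p q : Pt} : Change p q ↔ Pool.Agent.H863R2.NL.Change p q := by
  constructor
  · rintro (h | h)
    · exact Pool.Agent.H863R2.NL.Change.out h
    · exact Pool.Agent.H863R2.NL.Change.back h
  · rintro (h | h)
    · exact Change.out h
    · exact Change.back h

theorem changes_eq (P Q : Set (ℤ × ℤ)) (ω : Z2.edgeSet → Bool) :
    changes P Q ω = Pool.Agent.Y996.NL.NP (H974.opn ω) P Q := by
  refine Pool.Agent.Y996.NL.np_eq (ω := ω) (P := P) (Q := Q) (Rch := Reach ω P) ?_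
    (fun u hu k => Reach.start hu k) (fun k p q h hf => h.free (free_iff.mpr hf))
    (fun k p q h hc => h.change (change_iff.mpr hc))
  intro k p h
  induction h with
  | @start v h k => exact ⟨v, h, Pool.Agent.W819.EN.Ch.refl _ _⟩
  | free _ hpq ih =>
    obtain ⟨u, hu, h'⟩ := ih
    exact ⟨u, hu, h'.rel (Pool.Agent.H863R2.NL.InfAux.free_iff.mp (free_iff.mp hpq))⟩
  | change _ hpq ih =>
    obtain ⟨u, hu, h'⟩ := ih
    exact ⟨u, hu, h'.step (Pool.Agent.H863R2.NL.InfAux.change_iff.mp (change_iff.mp hpq))⟩

/-- `A` and `B` are the two complementary components of a doubly connected domain of the Riemann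
sphere, not smaller than the mesh `ε`: disjoint closed connected sets whose finite parts have two
points at distance at least `ε`. -/
structure Plates (A B : Set (OnePoint ℂ)) (ε : ℝ) : Prop where
  closedA : IsClosed A
  connA : IsConnected A
  closedB : IsClosed B
  connB : IsConnected B
  disj : Disjoint A B
  pos : 0 < ε
  sizeA : ∃ x ∈ finitePart A, ∃ y ∈ finitePart A, ε ≤ dist x y
  sizeB : ∃ x ∈ finitePart B, ∃ y ∈ finitePart B, ε ≤ dist x y

theorem adm {A B : Set (OnePoint ℂ)} {ε : ℝ} (h : Plates A B ε) :
    Pool.Agent.Helper859_NL.Adm A B ε :=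
  ⟨h.closedA, h.connA.isPreconnected, h.closedB, h.connB.isPreconnected, h.disj, h.pos, h.sizeA,
    h.sizeB⟩

theorem ni_eq (A B : Set (OnePoint ℂ)) (ε : ℝ) (ω : Z2.edgeSet → Bool) :
    changes (near ε (finitePart A)) (near ε (finitePart B)) ω =
      Pool.Agent.Helper859_NL.ni A B ε ω := changes_eq _ _ ω

/-- **Moderate deviations of the number of interfaces, uniformly in the domain.** For every `δ > 0`
there is `K ≥ 1` such that, for all doubly connected domains (modulus `M`), all meshes and all `x`
with `K ≤ x` and `K x ≤ √M`, the probabilities that the number of interfaces is at least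
`M / √3 + x √M`, or at most `M / √3 - x √M`, are between `exp (- (1 + δ) x² / (2 v))` and
`exp (- (1 - δ) x² / (2 v))`, where `v = 4 / (3 √3) - 1 / π`. -/
theorem result (δ : ℝ) (hδ : 0 < δ) : ∃ K : ℝ, 1 ≤ K ∧
    ∀ (A B : Set (OnePoint ℂ)) (ε x : ℝ), Plates A B ε → K ≤ x →
      K * x ≤ √(modulus (finitePart A) (finitePart B)) →
      (Real.exp (-((1 + δ) * x ^ 2 / (2 * (4 / (3 * √3) - 1 / Real.pi)))) ≤
        crit.real {ω | modulus (finitePart A) (finitePart B) / √3 +
          x * √(modulus (finitePart A) (finitePart B)) ≤
            (changes (near ε (finitePart A)) (near ε (finitePart B)) ω : ℝ)} ∧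
      crit.real {ω | modulus (finitePart A) (finitePart B) / √3 +
          x * √(modulus (finitePart A) (finitePart B)) ≤
            (changes (near ε (finitePart A)) (near ε (finitePart B)) ω : ℝ)} ≤
        Real.exp (-((1 - δ) * x ^ 2 / (2 * (4 / (3 * √3) - 1 / Real.pi))))) ∧
      (Real.exp (-((1 + δ) * x ^ 2 / (2 * (4 / (3 * √3) - 1 / Real.pi)))) ≤
        crit.real {ω | (changes (near ε (finitePart A)) (near ε (finitePart B)) ω : ℝ) ≤
          modulus (finitePart A) (finitePart B) / √3 -
            x * √(modulus (finitePart A) (finitePart B))} ∧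
      crit.real {ω | (changes (near ε (finitePart A)) (near ε (finitePart B)) ω : ℝ) ≤
          modulus (finitePart A) (finitePart B) / √3 -
            x * √(modulus (finitePart A) (finitePart B))} ≤
        Real.exp (-((1 - δ) * x ^ 2 / (2 * (4 / (3 * √3) - 1 / Real.pi))))) := by
  obtain ⟨K, hK, h⟩ := Pool.Agent.Helper859_NL.FinalD.mdp δ hδ
  refine ⟨K, hK, fun A B ε x hA hx hKx => ⟨?_, ?_⟩⟩
  · have h1 := h A B ε x (adm hA) hx hKx 1 (Or.inl rfl)
    have e : {ω | modulus (finitePart A) (finitePart B) / √3 +
          x * √(modulus (finitePart A) (finitePart B)) ≤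
            (changes (near ε (finitePart A)) (near ε (finitePart B)) ω : ℝ)} =
        {ω | x * √(modulus (finitePart A) (finitePart B)) ≤
          1 * ((Pool.Agent.Helper859_NL.ni A B ε ω : ℝ) -
            modulus (finitePart A) (finitePart B) / √3)} := by
      ext ω
      simp only [Set.mem_setOf_eq, ni_eq, one_mul]
      exact le_sub_iff_add_le'.symm
    rw [e]
    exact h1
  · have h1 := h A B ε x (adm hA) hx hKx (-1) (Or.inr rfl)
    have e : {ω | (changes (near ε (finitePart A)) (near ε (finitePart B)) ω : ℝ) ≤
          modulus (finitePart A) (finitePart B) / √3 -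
            x * √(modulus (finitePart A) (finitePart B))} =
        {ω | x * √(modulus (finitePart A) (finitePart B)) ≤
          (-1) * ((Pool.Agent.Helper859_NL.ni A B ε ω : ℝ) -
            modulus (finitePart A) (finitePart B) / √3)} := by
      ext ω
      simp only [Set.mem_setOf_eq, ni_eq, neg_one_mul, neg_sub]
      exact le_sub_comm
    rw [e]
    exact h1

end Pool.Agent.Results.MP_b3e76a_pr.InterfaceModerateDeviations
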