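import Pool.Agent.H940.GP.HomAsym
import Pool.Agent.W424.NC.Win

/-!
The exploration path of bond percolation on `ℤ²` below the critical point. In the box
`[0, ℓ] × [0, H]` the bottom side is the open arc and the left, the right and the top side form
the closed arc; `p ≤ 1/2`. The distance from the exploration path to the open arc has exponential
tails on the scale `L = (1/2 - p)^(-4/3)`, it is of the exact order `L log (ℓ / L)`, and the
scaling limits at parameters `p n` in the squares `[0, n]²` are degenerate (the exploration path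
converges to the open arc) if and only if `(1/2 - p n) n^(3/4)` tends to infinity.
-/

namespace Pool.Agent.Results.MP_b3e76a_pr.OffCriticalInterface

open Finset Filter Topology

/-- Vertices of the square lattice. -/
abbrev Vertex := ℤ × ℤ

/-- Edges of the square lattice: `(x, y, true)` joins `(x, y)` to `(x + 1, y)` and
`(x, y, false)` joins `(x, y)` to `(x, y + 1)`. -/
abbrev Edge := ℤ × ℤ × Bool

/-- Faces of the square lattice: `(x, y)` is the square `[x, x + 1] × [y, y + 1]`. -/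
abbrev Face := ℤ × ℤ

/-- First end of an edge. -/
def src (e : Edge) : Vertex := (e.1, e.2.1)

/-- Second end of an edge. -/
def tgt (e : Edge) : Vertex := if e.2.2 then (e.1 + 1, e.2.1) else (e.1, e.2.1 + 1)

/-- The face below a horizontal edge or on the left of a vertical edge. -/
def faceA (e : Edge) : Face := if e.2.2 then (e.1, e.2.1 - 1) else (e.1 - 1, e.2.1)

/-- The face above a horizontal edge or on the right of a vertical edge. -/
def faceB (e : Edge) : Face := (e.1, e.2.1)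

/-- The vertex `v` belongs to the box `[0, ℓ] × [0, H]`. -/
def InBox (ℓ H : ℕ) (v : Vertex) : Prop := (0 ≤ v.1 ∧ v.1 ≤ ℓ) ∧ (0 ≤ v.2 ∧ v.2 ≤ H)

instance (ℓ H : ℕ) (v : Vertex) : Decidable (InBox ℓ H v) := by
  unfold InBox
  infer_instance

/-- The edges with both ends in the box `[0, ℓ] × [0, H]`. -/
noncomputable def edges (ℓ H : ℕ) : Finset Edge :=
  (Icc (0:ℤ) ℓ ×ˢ (Icc (0:ℤ) H ×ˢ univ)).filter (fun e => InBox ℓ H (src e) ∧ InBox ℓ H (tgt e))

open Classical in
/-- The probability of an event: every edge of the box is open with probability `p`,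
independently, and the event is a property of the set `F` of the open edges. -/
noncomputable def prob (p : ℝ) (ℓ H : ℕ) (A : Finset Edge → Prop) : ℝ :=
  ∑ F ∈ (edges ℓ H).powerset with A F, p ^ F.card * (1 - p) ^ (edges ℓ H \ F).card

/-- `u` and `v` are joined by a path of edges of `F`. -/
def Joined (F : Set Edge) (u v : Vertex) : Prop :=
  Relation.ReflTransGen
    (fun a b => ∃ e ∈ F, (src e = a ∧ tgt e = b) ∨ (src e = b ∧ tgt e = a)) u v

/-- The cluster of the open arc `[0, ℓ] × {0}`. -/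
def Cluster (ℓ : ℕ) (F : Finset Edge) (v : Vertex) : Prop :=
  ∃ x : ℤ, (0 ≤ x ∧ x ≤ ℓ) ∧ Joined (F : Set Edge) (x, 0) v

/-- The walls on the open side of the exploration path: the edges of the open arc, which are
declared open, and the open edges of its cluster. -/
def Wall (ℓ : ℕ) (F : Finset Edge) (e : Edge) : Prop :=
  (e.2.2 = true ∧ e.2.1 = 0) ∨ (e ∈ F ∧ Cluster ℓ F (src e))

/-- The face `f` is on the closed side of the exploration path: it is joined, by a path of faces
which crosses edges of the box but no walls, to a face on the other side of the left, the right or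
the top side of the box (the closed arc). -/
def ClosedSide (ℓ H : ℕ) (F : Finset Edge) (f : Face) : Prop :=
  ∃ g : Face, (g.1 = -1 ∨ g.1 = ℓ ∨ g.2 = H) ∧
    Relation.ReflTransGen (fun f g => ∃ e ∈ edges ℓ H, ¬ Wall ℓ F e ∧
      ((faceA e = f ∧ faceB e = g) ∨ (faceA e = g ∧ faceB e = f))) f g

/-- The exploration path visits (the midpoint of) the edge `e` of the box: an end of `e` is in the
cluster of the open arc and a face at `e` is on the closed side. -/
def Visits (ℓ H : ℕ) (F : Finset Edge) (e : Edge) : Prop :=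
  e ∈ edges ℓ H ∧ (Cluster ℓ F (src e) ∨ Cluster ℓ F (tgt e)) ∧
    (ClosedSide ℓ H F (faceA e) ∨ ClosedSide ℓ H F (faceB e))

/-- The distance between the exploration path and the open arc: the largest height (of the lower
end) of an edge visited by the exploration path. -/
noncomputable def dist (ℓ H : ℕ) (F : Finset Edge) : ℤ :=
  sSup {y : ℤ | ∃ e : Edge, Visits ℓ H F e ∧ (src e).2 = y}

/-! ### Proofs -/

theorem edges_eq (ℓ H : ℕ) : edges ℓ H = H974.RE 0 ℓ 0 H := by
  ext e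
  obtain ⟨x, y, b⟩ := e
  unfold edges
  rw [mem_filter, mem_product, mem_product, mem_Icc, mem_Icc]
  cases b
  · rw [H974.mem_RE_false]
    simp only [mem_univ, InBox, src, tgt, Bool.false_eq_true, if_false, and_true]
    omega
  · rw [H974.mem_RE_true]
    simp only [mem_univ, InBox, src, tgt, if_true, and_true]
    omega

theorem prob_eq (p : ℝ) (ℓ H : ℕ) (A : Finset Edge → Prop) :
    prob p ℓ H A = H974.Pr (fun _ => p) (H974.RE 0 ℓ 0 H) A := by
  classical
  unfold prob H974.Pr H974.Ex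
  rw [edges_eq, sum_filter]
  apply sum_congr
  · congr
  · intro F _
    beta_reduce
    rw [prod_const, prod_const]
    by_cases hA : A F
    · rw [if_pos hA, H974.ind_of hA, mul_one]
    · rw [if_neg hA, H974.ind_not_of hA, mul_zero]

theorem joined_iff (F : Set Edge) (u v : Vertex) : Joined F u v ↔ H974.Reach F u v := Iff.rfl

theorem inBox_of {ℓ H : ℕ} {F : Finset Edge} (hF : F ⊆ H974.RE 0 ℓ 0 H) {x : ℤ}
    (hx : 0 ≤ x ∧ x ≤ ℓ) {w : Vertex} (h : H974.Reach (F : Set Edge) (x, 0) w) :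
    InBox ℓ H w := by
  induction h with
  | refl => exact ⟨hx, by simp only; omega⟩
  | @tail w w' _ hs _ =>
    obtain ⟨⟨x0, y0, _ | _⟩, heF, hcase⟩ := hs
    · have he := hF heF
      rw [H974.mem_RE_false] at he
      simp only [H974.src_mk, H974.tgt_false] at hcase
      unfold InBox
      rcases hcase with ⟨h3, h4⟩ | ⟨h3, h4⟩
      · rw [← h4]; simp only; omega
      · rw [← h3]; simp only; omega
    · have he := hF heF
      rw [H974.mem_RE_true] at he
      simp only [H974.src_mk, H974.tgt_true] at hcase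
      unfold InBox
      rcases hcase with ⟨h3, h4⟩ | ⟨h3, h4⟩
      · rw [← h4]; simp only; omega
      · rw [← h3]; simp only; omega

theorem cluster_inBox {ℓ H : ℕ} {F : Finset Edge} (hF : F ⊆ H974.RE 0 ℓ 0 H) {v : Vertex}
    (h : Cluster ℓ F v) : InBox ℓ H v := by
  obtain ⟨x, hx, hj⟩ := h
  exact inBox_of hF hx hj

/-- The faces right above the highest vertex of the cluster are on the closed side. -/
theorem closed_above {ℓ H : ℕ} {F : Finset Edge} {x M : ℤ} (hx : 0 ≤ x ∧ x < ℓ) (hM : 0 ≤ M)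
    (hMH : M ≤ H) (hmax : ∀ v : Vertex, Cluster ℓ F v → v.2 ≤ M) : ClosedSide ℓ H F (x, M) := by
  refine ⟨(x, (H:ℤ)), Or.inr (Or.inr rfl), ?_⟩
  obtain ⟨k, hk⟩ : ∃ k : ℕ, (H:ℤ) = M + k := ⟨((H:ℤ) - M).toNat, by omega⟩
  rw [hk]
  have key : ∀ j : ℕ, j ≤ k → Relation.ReflTransGen (fun f g => ∃ e ∈ edges ℓ H, ¬ Wall ℓ F e ∧
      ((faceA e = f ∧ faceB e = g) ∨ (faceA e = g ∧ faceB e = f))) ((x, M) : Face) (x, M + j) := by
    intro j
    induction j with
    | zero => intro _; simpa using Relation.ReflTransGen.refl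
    | succ j ih =>
      intro hj
      refine (ih (by omega)).tail ⟨(x, M + j + 1, true), ?_, ?_, Or.inl ⟨?_, ?_⟩⟩
      · rw [edges_eq, H974.mem_RE_true]
        omega
      · rintro (⟨-, h2⟩ | ⟨-, h2⟩)
        · simp only at h2; omega
        · have := hmax _ h2
          simp only [src] at this
          omega
      · simp [faceA]
      · simp only [faceB]
        push_cast
        ring_nf
  exact key k le_rfl

theorem dist_bdd {ℓ H : ℕ} {F : Finset Edge} :
    BddAbove {y : ℤ | ∃ e : Edge, Visits ℓ H F e ∧ (src e).2 = y} := by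
  refine ⟨H, ?_⟩
  rintro y ⟨e, ⟨he, -⟩, rfl⟩
  unfold edges at he
  rw [mem_filter] at he
  exact he.2.1.2.2

theorem visits_corner {ℓ H : ℕ} (hH : 1 ≤ H) (F : Finset Edge) : Visits ℓ H F (0, 0, false) := by
  refine ⟨?_, Or.inl ⟨0, by omega, Relation.ReflTransGen.refl⟩, Or.inl ?_⟩
  · rw [edges_eq, H974.mem_RE_false]
    omega
  · exact ⟨(-1, 0), Or.inl rfl, by simpa [faceA] using Relation.ReflTransGen.refl⟩

/-- The distance is attained. -/
theorem dist_mem {ℓ H : ℕ} (hH : 1 ≤ H) (F : Finset Edge) :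
    ∃ e : Edge, Visits ℓ H F e ∧ (src e).2 = dist ℓ H F := by
  have h := Int.csSup_mem (s := {y : ℤ | ∃ e : Edge, Visits ℓ H F e ∧ (src e).2 = y})
    ⟨0, (0, 0, false), visits_corner hH F, rfl⟩ dist_bdd
  exact h

theorem le_dist_iff {ℓ H : ℕ} {F : Finset Edge} (hF : F ⊆ H974.RE 0 ℓ 0 H) (hℓ : 1 ≤ ℓ)
    (hH : 1 ≤ H) {h : ℕ} (hh : 1 ≤ h) : (h:ℤ) ≤ dist ℓ H F ↔ H974.TBc 0 ℓ 0 h F := by
  constructor
  · intro hd
    obtain ⟨e, ⟨-, hc, -⟩, he⟩ := dist_mem (ℓ := ℓ) hH F
    obtain ⟨v, ⟨x, hx, hj⟩, hv⟩ : ∃ v : Vertex, Cluster ℓ F v ∧ (h:ℤ) ≤ v.2 := by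
      rcases hc with hc | hc
      · exact ⟨_, hc, by rw [he]; exact hd⟩
      · refine ⟨_, hc, ?_⟩
        have : (src e).2 ≤ (tgt e).2 := by
          obtain ⟨a, b, _ | _⟩ := e <;> simp [src, tgt]
        omega
    rw [joined_iff] at hj
    obtain ⟨x1, x2, h3, h4, h5, -⟩ := H974.sub_TB (a := 0) (b := ℓ) (c := 0) (d := h) (by omega)
      (by
        intro x y he _ _
        have := hF (Finset.mem_coe.mp he)
        rw [H974.mem_RE_false] at this; omega)
      (by
        intro x y he _ _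
        have := hF (Finset.mem_coe.mp he)
        rw [H974.mem_RE_true] at this; omega) hj le_rfl hv
    exact ⟨x1, x2, h3, h4, h5⟩
  · rintro ⟨x, x', hx, hx', hr⟩
    -- the highest vertex of the cluster
    have hbdd : BddAbove {y : ℤ | ∃ v : Vertex, Cluster ℓ F v ∧ v.2 = y} := by
      refine ⟨H, ?_⟩
      rintro y ⟨v, hv, rfl⟩
      exact (cluster_inBox hF hv).2.2
    have hin : (h:ℤ) ∈ {y : ℤ | ∃ v : Vertex, Cluster ℓ F v ∧ v.2 = y} :=
      ⟨(x', (h:ℤ)), ⟨x, hx, (joined_iff _ _ _).mpr (hr.mono Set.inter_subset_left)⟩, rfl⟩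
    obtain ⟨M, hM⟩ : ∃ M : ℤ, M = sSup {y : ℤ | ∃ v : Vertex, Cluster ℓ F v ∧ v.2 = y} :=
      ⟨_, rfl⟩
    have hhM : (h:ℤ) ≤ M := by rw [hM]; exact le_csSup hbdd hin
    obtain ⟨v, hv, hvM⟩ : ∃ v : Vertex, Cluster ℓ F v ∧ v.2 = M := by
      have := Int.csSup_mem (s := {y : ℤ | ∃ v : Vertex, Cluster ℓ F v ∧ v.2 = y}) ⟨_, hin⟩ hbdd
      rw [← hM] at this
      exact this
    have hmax : ∀ w : Vertex, Cluster ℓ F w → w.2 ≤ M := by
      intro w hw
      rw [hM]
      exact le_csSup hbdd ⟨w, hw, rfl⟩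
    have hvb := cluster_inBox hF hv
    obtain ⟨vx, vy⟩ := v
    simp only at hvM
    subst hvM
    unfold InBox at hvb
    simp only at hvb
    have hgoal : ∃ e : Edge, Visits ℓ H F e ∧ (src e).2 = vy := by
      rcases lt_or_ge vy (H:ℤ) with hlt | hge
      · refine ⟨(vx, vy, false), ⟨?_, Or.inl hv, Or.inr ?_⟩, rfl⟩
        · rw [edges_eq, H974.mem_RE_false]; omega
        · rcases lt_or_ge vx (ℓ:ℤ) with h1 | h1
          · exact closed_above ⟨hvb.1.1, h1⟩ hvb.2.1 hvb.2.2 hmax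
          · refine ⟨(vx, vy), Or.inr (Or.inl (by simp only; omega)), ?_⟩
            exact Relation.ReflTransGen.refl
      · rcases lt_or_ge vx (ℓ:ℤ) with h1 | h1
        · refine ⟨(vx, vy, true), ⟨?_, Or.inl hv, Or.inr ?_⟩, rfl⟩
          · rw [edges_eq, H974.mem_RE_true]; omega
          · refine ⟨(vx, vy), Or.inr (Or.inr (by simp only; omega)), ?_⟩
            exact Relation.ReflTransGen.refl
        · refine ⟨(vx - 1, vy, true), ⟨?_, Or.inr ?_, Or.inr ?_⟩, rfl⟩
          · rw [edges_eq, H974.mem_RE_true]; omega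
          · simpa [tgt] using hv
          · refine ⟨(vx - 1, vy), Or.inr (Or.inr (by simp only; omega)), ?_⟩
            exact Relation.ReflTransGen.refl
    exact hhM.trans (le_csSup dist_bdd hgoal)

theorem winU : H940.GP.WinU := W424.NC.win_upper 3 (by norm_num)

theorem winL : H940.GP.WinL := W424.NC.win_lower 2 (by norm_num)

/-- **The exploration path of bond percolation on `ℤ²` for `p ≤ 1/2`.** In the box
`[0, ℓ] × [0, H]`, `dist` is the distance of the exploration path from the open arc, the bottom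
side. (1), (2) The tails of `dist`, on the scale `(1/2 - p)^(-4/3)`. (3) The exact order of
`dist`. (4) In the squares `[0, n]²`, at the parameters `p n`, the exploration path converges to
the open arc, on the macroscopic scale, if and only if `(1/2 - p n) n^(3/4)` tends to infinity. -/
theorem result :
    -- (1) upper bound for the tail
    (∃ c C : ℝ, 0 < c ∧ 0 < C ∧ ∀ p : ℝ, 0 ≤ p → p ≤ 1/2 → ∀ ℓ H h : ℕ, 1 ≤ ℓ → 1 ≤ h → h ≤ H →
      prob p ℓ H (fun F => (h:ℤ) ≤ dist ℓ H F) ≤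
        C * ((ℓ:ℝ) / h + 1) * Real.exp (-(c * (h * (1/2 - p)^(4/3 : ℝ))))) ∧
    -- (2) lower bound for the tail
    (∃ c C : ℝ, 0 < c ∧ 0 < C ∧ ∀ p : ℝ, 1/4 ≤ p → p ≤ 1/2 → ∀ ℓ H h : ℕ, 1 ≤ h → h ≤ ℓ →
      h ≤ H → prob p ℓ H (fun F => dist ℓ H F < (h:ℤ)) ≤
        Real.exp (-(c * ((ℓ:ℝ) / h) * Real.exp (-(C * (h * (1/2 - p)^(4/3 : ℝ))))))) ∧
    -- (3) the order of magnitude off criticality
    (∃ a A : ℝ, 0 < a ∧ 0 < A ∧ ∀ p : ℝ, 1/4 ≤ p → p < 1/2 → ∀ ℓ H : ℕ, ∀ L R : ℝ,
      L = (1/2 - p)^(-(4/3) : ℝ) → R = L * Real.log ((ℓ:ℝ) / L) → A * L ≤ ℓ → R ≤ H →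
        1 - A * L / ℓ ≤ prob p ℓ H (fun F => a * R ≤ dist ℓ H F ∧ dist ℓ H F ≤ A * R)) ∧
    -- (4) the critical window
    (∀ p : ℕ → ℝ, (∀ n, 0 ≤ p n ∧ p n ≤ 1/2) →
      ((∀ ε : ℝ, 0 < ε →
          Tendsto (fun n : ℕ => prob (p n) n n (fun F => ε * n ≤ dist n n F)) atTop (𝓝 0)) ↔
        Tendsto (fun n : ℕ => (1/2 - p n) * (n:ℝ)^(3/4 : ℝ)) atTop atTop)) := by
  refine ⟨?_, ?_, ?_, ?_⟩
  · obtain ⟨c, C, hc, hC, hup⟩ := H940.GP.hom_up winU
    refine ⟨c, C, hc, hC, ?_⟩
    intro p hp0 hp1 ℓ H h hℓ hh hhH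
    rw [prob_eq]
    refine le_trans (H974.Pr_mono (H974.okq hp0 (by linarith)) ?_)
      (hup p hp0 hp1 (H974.RE 0 ℓ 0 H) ℓ h hh)
    intro F hF hd
    exact (le_dist_iff hF hℓ (by omega) hh).mp hd
  · obtain ⟨c, C, hc, hC, hlow⟩ := H940.GP.hom_low winL
    refine ⟨c, C, hc, hC, ?_⟩
    intro p hp0 hp1 ℓ H h hh hhl hhH
    rw [prob_eq]
    refine le_trans (H974.Pr_mono (H974.okq (by linarith) (by linarith)) ?_)
      (hlow p hp0 hp1 (H974.RE 0 ℓ 0 H) ℓ h hh hhl ?_)
    · intro F hF hd hT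
      have := (le_dist_iff hF (by omega) (by omega) hh).mpr hT
      omega
    · rintro ⟨x, y, _ | _⟩ h8
      · simp only [H974.mem_TBE_false, H974.mem_RE_false] at h8 ⊢; omega
      · simp only [H974.mem_TBE_true, H974.mem_RE_true] at h8 ⊢; omega
  · obtain ⟨a, A, ha, hA, hasym⟩ := H940.GP.hom_asym winU winL
    refine ⟨a, A, ha, hA, ?_⟩
    intro p hp0 hp1 ℓ H L R hL hR hAL hRH
    obtain ⟨h0, h1, k1, k2, k3, k4, k5, k6, k7, k8, k9⟩ :=
      hasym p hp0 hp1 ℓ H L R hL hR hAL hRH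
    have hok := H974.okq (q := p) (by linarith) (by linarith)
    rw [prob_eq]
    have hbad : H974.Pr (fun _ => p) (H974.RE 0 ℓ 0 H)
        (fun F => ¬ (a * R ≤ dist ℓ H F ∧ dist ℓ H F ≤ A * R)) ≤
        H974.Pr (fun _ => p) (H974.RE 0 ℓ 0 H)
          (fun F => H974.TBc 0 ℓ 0 h0 F ∨ ¬ H974.TBc 0 ℓ 0 h1 F) := by
      apply H974.Pr_mono hok
      intro F hF hE
      by_contra hcon
      apply hE
      push Not at hcon
      obtain ⟨g1, g2⟩ := hcon
      constructor
      · have e1 := (le_dist_iff hF (by omega) (by omega) k4).mpr g2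
        have e2 : (h1:ℝ) ≤ (dist ℓ H F : ℤ) := by exact_mod_cast e1
        linarith
      · by_contra hlt
        push Not at hlt
        have e1 : (h0:ℝ) < (dist ℓ H F : ℤ) := lt_of_le_of_lt k1 hlt
        have e2 : (h0:ℤ) < dist ℓ H F := by exact_mod_cast e1
        exact g1 ((le_dist_iff hF (by omega) (by omega) k2).mp e2.le)
    have u1 := H974.Pr_or_le hok (H974.RE 0 ℓ 0 H) (H974.TBc 0 ℓ 0 h0)
      (fun F => ¬ H974.TBc 0 ℓ 0 h1 F)
    have hnot := H974.Pr_not (p := fun _ => p) (H974.RE 0 ℓ 0 H)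
      (fun F => a * R ≤ dist ℓ H F ∧ dist ℓ H F ≤ A * R)
    have e9 : A * L / ℓ = A / 2 * (L / ℓ) + A / 2 * (L / ℓ) := by ring
    rw [e9]
    linarith
  · intro p hp
    rw [← H940.GP.hom_window winU winL p hp]
    apply forall₂_congr
    intro ε hε
    apply tendsto_congr'
    filter_upwards [eventually_ge_atTop 1] with n hn
    rw [prob_eq]
    have hn0 : (1:ℝ) ≤ n := by exact_mod_cast hn
    have hpos : 0 < ε * n := by positivity
    apply H974.Pr_congr
    intro F hF
    rw [← le_dist_iff hF hn hn (Nat.one_le_iff_ne_zero.mpr (Nat.ceil_pos.mpr hpos).ne')]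
    constructor
    · intro h1
      have h2 : 0 ≤ dist n n F := by
        have : (0:ℝ) ≤ (dist n n F : ℤ) := hpos.le.trans h1
        exact_mod_cast this
      obtain ⟨d, hd⟩ := Int.eq_ofNat_of_zero_le h2
      rw [hd] at h1 ⊢
      have h3 : ε * n ≤ (d:ℝ) := by exact_mod_cast h1
      exact_mod_cast Nat.ceil_le.mpr h3
    · intro h1
      have h2 : ((⌈ε * n⌉₊ : ℕ) : ℝ) ≤ (dist n n F : ℤ) := by exact_mod_cast h1
      exact (Nat.le_ceil _).trans h2

end Pool.Agent.Results.MP_b3e76a_pr.OffCriticalInterface
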